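import Mathlib
import Pool.Agent.U534.PolyStep
import Pool.Agent.H340R2.LW

/-!
# Random polynomials in the exponents of `e` and `π`

The numbers `e^e`, `π^e`, `π^π` are the cases `P = X` of `e^{P(e)}`, `π^{P(e)}`, `π^{P(π)}`, and
`π + e`, `π e` are `π + e^{P(π)}`, `π e^{P(π)}` with `P = 1`.  According to Schanuel's conjecture
the numbers `e^{P_1(e)}`, `π^{P_2(e)}`, `e^{P_3(π)}`, `π^{P_4(π)}` are algebraically independent over
the field `ℚ(e, π)` for all non-constant polynomials `P_i` with rational coefficients. For no single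
quadruple of polynomials is this known.

We consider random polynomials of degree `< k`, with coefficients in a finite set `A` of rational
numbers, for instance `A = {0, 1}`.

**Theorem.** (1) For all `l`, `n`, `d`, `D` there are `k₀`, `C`, `δ > 0` such that for all `k ≥ k₀` and all
`A`, for all but `C |A|^(n k - δ k)` of the `|A|^(n k)` systems of polynomials `P_1, …, P_n` the numbers
`s_1, …, s_l` and the `n (d + 1)` numbers

  `exp (ξ_{j,i} + y_j t_j^i P_j(t_j))`  (`j ≤ n`, `0 ≤ i ≤ d`)

satisfy no nonzero polynomial relation with algebraic coefficients of degree at most `D` in each of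
them. Here `s_1, …, s_l` are arbitrary numbers with this property, `t_j` is any transcendental number,
`y_j ≠ 0` and the `ξ_{j,i}` are arbitrary complex numbers, and `t_j`, `y_j`, `ξ_{j,i}` may depend in an
arbitrary way on the polynomials `P_1, …, P_{j-1}` (for instance they may be functions of the numbers
of the steps before).

(2) In particular for all but `C |A|^(4 k - δ k)` quadruples of polynomials the real numbers
`e^(e^i P_1(e))`, `π^(e^i P_2(e))`, `e^(π^i P_3(π))`, `π^(π^i P_4(π))`, `0 ≤ i ≤ d`, together with `e`,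
satisfy no relation of degree at most `D` in each of them, and the same is true with `π` in place of
`e`. For `i = 0` these are five numbers `e`, `e^{P_1(e)}`, `π^{P_2(e)}`, `e^{P_3(π)}`, `π^{P_4(π)}`.

The starting result `Families` of this problem treats one number, all degrees: the polynomials `P` of
degree `≤ n` such that `t`, `exp (y P(t))` are algebraically dependent span a space of dimension
at most `√(8 n + 7) - 1`.  Here many numbers are treated jointly, relative to arbitrary `s_i`.

**The proof.** The theorem `Pool.Agent.Y918.GB.mat1` of the starting library, where it was not handed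
in, says that of the `m + 1` numbers `exp (ξ_i + x_i ∑ a_r y_r)`, for suitable `m` of the indices `i`, no
relation holds for most `a` (six exponentials theorem, cubes, iterated Cauchy-Schwarz inequality). It
is applied to `x_i = y t^i`, `i ≤ 2 d + 1`, and `y_r = t^r`: there are `d + 1` consecutive indices
different from the omitted one, and these are moved to `0, …, d` by a shift of the
coefficients of the polynomial (`Pool.Agent.U534.PolyStep`). The steps are joined by conditioning
(`Pool.Agent.U534.Adapt`).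
-/

set_option autoImplicit false

noncomputable section

namespace Pool.Agent.Results.MP_a49cf6_nt.RandomPolynomialExponents

open Module Finset

/-- The numbers `x_i` satisfy no nonzero polynomial relation with algebraic coefficients of degree
at most `D` in each of them. -/
def NoRelation (D : ℕ) {ι : Type} (x : ι → ℂ) : Prop :=
  ∀ p : MvPolynomial ι (algebraicClosure ℚ ℂ), (∀ i, p.degreeOf i ≤ D) →
    MvPolynomial.aeval x p = 0 → p = 0

/-- `F j P` depends only on the polynomials `P_i` with `i < j`. -/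
def Predictable {n k : ℕ} {Y : Type} (F : Fin n → (Fin n → Fin k → ℚ) → Y) : Prop :=
  ∀ (j : Fin n) (P Q : Fin n → Fin k → ℚ), (∀ i < j, P i = Q i) → F j P = F j Q

/-- The value at `t` of the polynomial with the coefficients `p_0, …, p_{k-1}`. -/
def value {k : ℕ} (p : Fin k → ℚ) (t : ℂ) : ℂ := ∑ r : Fin k, (p r : ℂ) * t ^ (r : ℕ)

/-- The numbers `exp (ξ_{j,i} + y_j t_j^i P_j(t_j))`. -/
def numbers {n k d : ℕ} (t y : Fin n → (Fin n → Fin k → ℚ) → ℂ)
    (ξ : Fin n → (Fin n → Fin k → ℚ) → Fin (d + 1) → ℂ) (P : Fin n → Fin k → ℚ) (j : Fin n)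
    (i : Fin (d + 1)) : ℂ :=
  Complex.exp (ξ j P i + y j P * t j P ^ (i : ℕ) * value (P j) (t j P))

/-- The bases: `e, π, e, π`. -/
def bas : Fin 4 → ℝ := ![Real.exp 1, Real.pi, Real.exp 1, Real.pi]

/-- The arguments of the polynomials: `e, e, π, π`. -/
def arg : Fin 4 → ℝ := ![Real.exp 1, Real.exp 1, Real.pi, Real.pi]

/-- The real numbers `e^(e^i P_1(e))`, `π^(e^i P_2(e))`, `e^(π^i P_3(π))`, `π^(π^i P_4(π))`. -/
def powers {k d : ℕ} (P : Fin 4 → Fin k → ℚ) (v : Fin 4 × Fin (d + 1)) : ℝ :=
  bas v.1 ^ (arg v.1 ^ (v.2 : ℕ) * ∑ r : Fin k, (P v.1 r : ℝ) * arg v.1 ^ (r : ℕ) : ℝ)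

theorem noRelation_single {t : ℂ} (ht : Transcendental ℚ t) (D : ℕ) :
    NoRelation D (fun _ : Fin 1 => t) := by
  intro p _ h0
  have ht' : Transcendental (algebraicClosure ℚ ℂ) t := by
    intro h
    have : Algebra.IsAlgebraic ℚ (algebraicClosure ℚ ℂ) := algebraicClosure.isAlgebraic ℚ ℂ
    exact ht (h.restrictScalars ℚ)
  have h1 : AlgebraicIndependent (algebraicClosure ℚ ℂ) (fun _ : Fin 1 => t) :=
    algebraicIndependent_unique_type_iff.2 ht'
  exact (algebraicIndependent_iff.1 h1) p h0

theorem trans_e : Transcendental ℚ ((Real.exp 1 : ℝ) : ℂ) := by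
  have := Pool.Agent.H340R2.LW.transcendental_exp_one_complex
  simpa using this

theorem trans_pi : Transcendental ℚ ((Real.pi : ℝ) : ℂ) :=
  Pool.Agent.H340R2.LW.transcendental_pi_complex

theorem bas_pos (j : Fin 4) : 0 < bas j := by
  fin_cases j
  · exact Real.exp_pos 1
  · exact Real.pi_pos
  · exact Real.exp_pos 1
  · exact Real.pi_pos

theorem bas_log (j : Fin 4) : ((Real.log (bas j) : ℝ) : ℂ) ≠ 0 := by
  have h1 : Real.log (Real.exp 1) ≠ 0 := by
    rw [Real.log_exp]
    exact one_ne_zero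
  have h2 : Real.log Real.pi ≠ 0 := (Real.log_pos (by linarith [Real.pi_gt_three])).ne'
  rw [Complex.ofReal_ne_zero]
  fin_cases j
  · exact h1
  · exact h2
  · exact h1
  · exact h2

theorem arg_trans (j : Fin 4) : Transcendental ℚ ((arg j : ℝ) : ℂ) := by
  fin_cases j
  · exact trans_e
  · exact trans_e
  · exact trans_pi
  · exact trans_pi

open Classical in
/-- **Main result.** -/
theorem result :
    (∀ l n d D : ℕ, ∃ (k₀ C : ℕ) (δ : ℝ), 0 < δ ∧ ∀ k ≥ k₀, ∀ A : Finset ℚ, A.Nonempty →
      ∀ (t y : Fin n → (Fin n → Fin k → ℚ) → ℂ)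
        (ξ : Fin n → (Fin n → Fin k → ℚ) → Fin (d + 1) → ℂ),
      Predictable t → Predictable y → Predictable ξ →
      (∀ j P, Transcendental ℚ (t j P)) → (∀ j P, y j P ≠ 0) →
      ∀ s : Fin l → ℂ, NoRelation D s →
      (((Fintype.piFinset fun _ : Fin n => Fintype.piFinset fun _ : Fin k => A).filter
        (fun P : Fin n → Fin k → ℚ => ¬ NoRelation D (Sum.elim s
          (fun v : Fin n × Fin (d + 1) => numbers t y ξ P v.1 v.2)))).card : ℝ) ≤
        C * (A.card : ℝ) ^ ((n * k : ℝ) - δ * k)) ∧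
    (∀ d D : ℕ, ∃ (k₀ C : ℕ) (δ : ℝ), 0 < δ ∧ ∀ k ≥ k₀, ∀ A : Finset ℚ, A.Nonempty →
      ∀ x : ℝ, (x = Real.exp 1 ∨ x = Real.pi) →
      (((Fintype.piFinset fun _ : Fin 4 => Fintype.piFinset fun _ : Fin k => A).filter
        (fun P : Fin 4 → Fin k → ℚ => ¬ NoRelation D (Sum.elim (fun _ : Fin 1 => (x : ℂ))
          (fun v : Fin 4 × Fin (d + 1) => ((powers P v : ℝ) : ℂ))))).card : ℝ) ≤
        C * (A.card : ℝ) ^ ((4 * k : ℝ) - δ * k)) := by
  have hmain : ∀ l n d D : ℕ, ∃ (k₀ C : ℕ) (δ : ℝ), 0 < δ ∧ ∀ k ≥ k₀, ∀ A : Finset ℚ, A.Nonempty →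
      ∀ (t y : Fin n → (Fin n → Fin k → ℚ) → ℂ)
        (ξ : Fin n → (Fin n → Fin k → ℚ) → Fin (d + 1) → ℂ),
      Predictable t → Predictable y → Predictable ξ →
      (∀ j P, Transcendental ℚ (t j P)) → (∀ j P, y j P ≠ 0) →
      ∀ s : Fin l → ℂ, NoRelation D s →
      (((Fintype.piFinset fun _ : Fin n => Fintype.piFinset fun _ : Fin k => A).filter
        (fun P : Fin n → Fin k → ℚ => ¬ NoRelation D (Sum.elim s
          (fun v : Fin n × Fin (d + 1) => numbers t y ξ P v.1 v.2)))).card : ℝ) ≤
        C * (A.card : ℝ) ^ ((n * k : ℝ) - δ * k) := by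
    intro l n d D
    obtain ⟨N₀, hN₀⟩ : ∃ N₀, N₀ = (D + 1) ^ l * Fintype.card (Fin (d + 1) → Fin (D + 1)) ^ n :=
      ⟨_, rfl⟩
    obtain ⟨k₀, C, δ, hδ, h⟩ := Pool.Agent.U534.PolyStep.poly_step d N₀ D
    refine ⟨k₀, n * C, δ, hδ, fun k hk A hA t y ξ ht hy hξ htr hy0 s hs => ?_⟩
    obtain ⟨hf, hr⟩ := Pool.Agent.U534.Adapt.monSpan_finite D s
    have hnum : ∀ (j : Fin n) (P Q : Fin n → Fin k → ℚ), (∀ i ≤ j, P i = Q i) →
        numbers t y ξ P j = numbers t y ξ Q j := by
      intro j P Q hPQ
      have h1 : t j P = t j Q := ht j P Q (fun i hi => hPQ i hi.le)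
      have h2 : y j P = y j Q := hy j P Q (fun i hi => hPQ i hi.le)
      have h3 : ξ j P = ξ j Q := hξ j P Q (fun i hi => hPQ i hi.le)
      funext i
      unfold numbers
      rw [h1, h2, h3, hPQ j le_rfl]
    refine le_trans (Nat.cast_le.2 (Finset.card_le_card ?_))
      (Pool.Agent.U534.Adapt.boxes (E := Fin (d + 1) → Fin (D + 1)) (n := n) (N := (D + 1) ^ l)
        (N₀ := N₀) (k := k) (C := C) (δ := δ) hN₀.ge hA (Pool.Agent.U534.Adapt.monSpan D s) hf hr
        (fun j P => {fun e : Fin (d + 1) → Fin (D + 1) =>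
          ∏ i, numbers t y ξ P j i ^ (e i : ℕ)}) ?_ ?_)
    · intro P hP
      rw [Finset.mem_filter] at hP ⊢
      refine ⟨hP.1, fun hg => hP.2 ?_⟩
      obtain ⟨g, hg, hgi⟩ := hg
      have hgT' : g = fun j (e : Fin (d + 1) → Fin (D + 1)) =>
          ∏ i, numbers t y ξ P j i ^ (e i : ℕ) := by
        funext j
        exact hg j
      rw [hgT'] at hgi
      exact Pool.Agent.U534.Adapt.noRelation_sum hs (fun j i => numbers t y ξ P j i) hgi
    · intro j P Q hPQ
      simp only [hnum j P Q hPQ]
    · intro j P hP W' hW' hWN'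
      refine le_trans (Nat.cast_le.2 (Finset.card_le_card ?_))
        (h k hk (t j P) (y j P) (htr j P) (hy0 j P) A hA W' hW' hWN' (ξ j P))
      intro p hp
      rw [Finset.mem_filter] at hp ⊢
      refine ⟨hp.1, ?_⟩
      intro hI
      apply hp.2
      refine ⟨_, rfl, ?_⟩
      have h1 : t j (Function.update P j p) = t j P :=
        ht j _ _ (fun i hi => Function.update_of_ne hi.ne _ _)
      have h2 : y j (Function.update P j p) = y j P :=
        hy j _ _ (fun i hi => Function.update_of_ne hi.ne _ _)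
      have h3 : ξ j (Function.update P j p) = ξ j P :=
        hξ j _ _ (fun i hi => Function.update_of_ne hi.ne _ _)
      have h5 : ∀ i, numbers t y ξ (Function.update P j p) j i =
          Complex.exp (ξ j P i + y j P * t j P ^ (i : ℕ) *
            ∑ r : Fin k, (p r : ℂ) * t j P ^ (r : ℕ)) := by
        intro i
        unfold numbers value
        rw [h1, h2, h3, Function.update_self]
      simp only [h5]
      exact hI
  refine ⟨hmain, fun d D => ?_⟩
  obtain ⟨k₀, C, δ, hδ, h⟩ := hmain 1 4 d D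
  refine ⟨k₀, C, δ, hδ, fun k hk A hA x hx => ?_⟩
  have hxt : Transcendental ℚ (x : ℂ) := by
    rcases hx with rfl | rfl
    · exact trans_e
    · exact trans_pi
  have h1 := h k hk A hA (fun j _ => ((arg j : ℝ) : ℂ)) (fun j _ => ((Real.log (bas j) : ℝ) : ℂ))
    (fun _ _ _ => 0) (fun _ _ _ _ => rfl) (fun _ _ _ _ => rfl) (fun _ _ _ _ => rfl)
    (fun j _ => arg_trans j) (fun j _ => bas_log j) _ (noRelation_single hxt D)
  have h2 : ∀ (P : Fin 4 → Fin k → ℚ) (v : Fin 4 × Fin (d + 1)),
      numbers (fun j _ => ((arg j : ℝ) : ℂ)) (fun j _ => ((Real.log (bas j) : ℝ) : ℂ))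
        (fun _ _ _ => 0) P v.1 v.2 = ((powers P v : ℝ) : ℂ) := by
    intro P v
    unfold numbers value powers
    rw [Real.rpow_def_of_pos (bas_pos v.1), zero_add]
    push_cast
    rw [mul_assoc]
  simp only [h2] at h1
  exact_mod_cast h1

end Pool.Agent.Results.MP_a49cf6_nt.RandomPolynomialExponents
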