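import Pool.Agent.U534.AlgMod
import Pool.Agent.U534.CountInt

/-!
# The modular Schanuel conjecture with derivatives over the field of all special values: almost full windows of algebraic
invariants

Let `z_1, …, z_n` be points of the upper half-plane whose invariants `t_i = j(z_i)` are algebraic. If they are not special
and lie in distinct `GL_2(ℚ)`-orbits, the modular Schanuel conjecture with derivatives and special points predicts that the
`3n` numbers `z_i`, `j'(z_i)`, `j''(z_i)` are algebraically independent, also if one adds the values `j'` at inequivalent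
special points.

Let `Ξ_0, Ξ_1, …` be any sets of complex numbers such that `Ξ_j` contains algebraic numbers `ξ` of arbitrarily large
absolute value which are roots of integral polynomials of degree at most `m_j` with coefficients at most `|ξ|^(A_j)`; here
the degrees `m_j` and the exponents `A_j` may grow with `j` as fast as one likes. There is a constant `G₀` such that for all
integers `G ≥ G₀` one can construct ONE infinite set `𝒯 = T_0 ∪ T_1 ∪ ⋯` of algebraic numbers: `T_j` consists of the
numbers `ξ - G, ξ - 2 G, …, ξ - H G` for some `ξ ∈ Ξ_j` and some `H` with the exception of a proportion of at most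
`1 / (j + 1)`, such that the numbers `z`, `j'(z)`, `j''(z)` at the points `z` with invariants in `𝒯` are asymptotically
algebraically independent over any given countable field:

* Let `F` be any countable set of complex numbers, for instance the algebraic closure of the field generated by the values
  `s`, `j(s)`, `j'(s)`, `j''(s)` at ALL special points `s` (it is countable). There is such a set `𝒯` with the following
  property. For every `n` and every nonzero polynomial `P` in `3n` variables with coefficients in `F`, of any degree, there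
  is `l` such that `P` does not vanish at the numbers `z_i`, `j'(z_i)`, `j''(z_i)`, for **all** points `z_i` with `j(z_i) = t_i`,
  where `t_1, …, t_n` are any distinct elements of `T_l ∪ T_(l + 1) ∪ ⋯`.
* Let `V_0 ⊆ V_1 ⊆ ⋯` be any finite dimensional `ℚ`-vector spaces of complex numbers and `δ_0 ≤ δ_1 ≤ ⋯` any integers
  (they may grow as fast as one likes). There is such a set `𝒯` such that for all choices of points `z_t` with invariants
  `t` in `𝒯` and for all `l` the numbers at the points `z_t` for `t ∈ T_l ∪ T_(l + 1) ∪ ⋯` satisfy no nontrivial polynomial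
  relation in any number of variables, of degree at most `δ_l` in each variable, with coefficients in `K V_l`, `K` any
  number field of degree at most `δ_l`.

The theorem on one short window around an algebraic number is a library theorem (`Pool.Agent.Y120.A.winJ`, the hand-in
`MP_f58a57_nt.AlgebraicInvariants` and its relatives); `MP_ede373_nt.AlmostFullWindows` treats integral invariants.
-/

set_option autoImplicit false

namespace Pool.Agent.Results.MP_f58a57_nt.AlmostFullWindows

/-- the normalised Eisenstein series of weight `4` -/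
noncomputable def E4 (τ : ℂ) : ℂ :=
  1 + 240 * ∑' m : ℕ, ((ArithmeticFunction.sigma 3 (m + 1) : ℕ) : ℂ) *
    Complex.exp (2 * (Real.pi : ℂ) * Complex.I * ((m : ℂ) + 1) * τ)

/-- the normalised Eisenstein series of weight `6` -/
noncomputable def E6 (τ : ℂ) : ℂ :=
  1 - 504 * ∑' m : ℕ, ((ArithmeticFunction.sigma 5 (m + 1) : ℕ) : ℂ) *
    Complex.exp (2 * (Real.pi : ℂ) * Complex.I * ((m : ℂ) + 1) * τ)

/-- the modular invariant `j = q⁻¹ + 744 + 196884 q + ⋯` -/
noncomputable def J (τ : ℂ) : ℂ := 1728 * E4 τ ^ 3 / (E4 τ ^ 3 - E6 τ ^ 2)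

/-- the numbers `z`, `j'(z)`, `j''(z)` -/
noncomputable def numbers (z : ℂ) : Fin 3 → ℂ := ![z, deriv J z, deriv (deriv J) z]

/-- the numbers `s`, `j(s)`, `j'(s)`, `j''(s)` at all special points `s` -/
def SpecialValues : Set ℂ :=
  {x | ∃ s : ℂ, 0 < s.im ∧ (∃ a b c : ℤ, a ≠ 0 ∧ a * s ^ 2 + b * s + c = 0) ∧
    (x = s ∨ x = J s ∨ x = deriv J s ∨ x = deriv (deriv J) s)}

/-- `Ξ j` contains numbers `ξ` of arbitrarily large absolute value which are roots of nonzero integral polynomials of degree
at most `m j` with coefficients at most `|ξ| ^ (A j)`. -/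
def Rich (m A : ℕ → ℕ) (Ξ : ℕ → Set ℂ) : Prop :=
  ∀ j N : ℕ, ∃ ξ ∈ Ξ j, (N : ℝ) ≤ ‖ξ‖ ∧
    ∃ p : Polynomial ℤ, p ≠ 0 ∧ p.natDegree ≤ m j ∧ (∀ i, |(p.coeff i : ℝ)| ≤ ‖ξ‖ ^ A j) ∧ Polynomial.aeval ξ p = 0

/-- The finite sets `T j` are disjoint; `T j` contains the points `ξ - G, ξ - 2 G, …, ξ - H G` for some `ξ ∈ Ξ j` and some
`H`, up to a proportion of at most `1 / (j + 1)`, it has at least `j` elements and they have absolute value at least `j`. -/
def AlmostFull (G : ℕ) (Ξ : ℕ → Set ℂ) (T : ℕ → Finset ℂ) : Prop :=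
  (∀ i j, i ≠ j → Disjoint (T i) (T j)) ∧ ∀ j : ℕ, ∃ ξ ∈ Ξ j, ∃ H : ℕ,
    (∀ t ∈ T j, (j : ℝ) ≤ ‖t‖ ∧ ∃ g : ℕ, 1 ≤ g ∧ g ≤ H ∧ t = ξ - ((G * g : ℕ) : ℂ)) ∧ j ≤ (T j).card ∧
      (j + 1) * (H - (T j).card) ≤ H

/-- `z` chooses points of the upper half-plane above the elements of the sets `T j`. -/
def Above (T : ℕ → Finset ℂ) (z : ℂ → ℂ) : Prop := ∀ j, ∀ t ∈ T j, 0 < (z t).im ∧ J (z t) = t

section proofs

lemma J_eq : J = Pool.Agent.TH21.MS.jj := by
  have h4 : E4 = Pool.Agent.TH21.MS.E4 := funext Pool.Agent.Y120.J.E4_same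
  have h6 : E6 = Pool.Agent.TH21.MS.E6 := funext Pool.Agent.Y120.J.E6_same
  funext τ
  unfold J Pool.Agent.TH21.MS.jj
  rw [h4, h6]

lemma numbers_mem {t : ℂ} {z : ℂ} (h0 : 0 < z.im) (h : J z = t) : numbers z ∈ Pool.Agent.U534.Tens.YC t := by
  refine ⟨⟨z, h0⟩, ?_, ?_⟩
  · rw [← J_eq]
    exact h
  · show numbers z = Pool.Agent.Y120.J.jt z
    unfold numbers Pool.Agent.Y120.J.jt
    rw [J_eq]

/-- there are countably many special values -/
theorem special_countable : SpecialValues.Countable := by
  have h1 : {s : ℂ | ∃ a b c : ℤ, a ≠ 0 ∧ a * s ^ 2 + b * s + c = 0}.Countable := by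
    refine (Algebraic.countable ℤ ℂ).mono fun s hs => ?_
    obtain ⟨a, b, c, ha, h⟩ := hs
    refine ⟨Polynomial.C a * Polynomial.X ^ 2 + Polynomial.C b * Polynomial.X + Polynomial.C c, ?_, ?_⟩
    · intro h0
      have h2 := Polynomial.leadingCoeff_quadratic (b := b) (c := c) ha
      rw [h0, Polynomial.leadingCoeff_zero] at h2
      exact ha h2.symm
    · simpa using h
  have h2 : SpecialValues ⊆ ⋃ f ∈ ({id, J, deriv J, deriv (deriv J)} : Set (ℂ → ℂ)),
      f '' {s : ℂ | ∃ a b c : ℤ, a ≠ 0 ∧ a * s ^ 2 + b * s + c = 0} := by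
    rintro x ⟨s, -, hs, hx⟩
    rcases hx with h | h | h | h
    · exact Set.mem_biUnion (x := id) (by simp) ⟨s, hs, h.symm⟩
    · exact Set.mem_biUnion (x := J) (by simp) ⟨s, hs, h.symm⟩
    · exact Set.mem_biUnion (x := deriv J) (by simp) ⟨s, hs, h.symm⟩
    · exact Set.mem_biUnion (x := deriv (deriv J)) (by simp) ⟨s, hs, h.symm⟩
  refine Set.Countable.mono h2 ?_
  exact Set.Countable.biUnion (Set.toFinite _).countable fun f _ => h1.image f

/-- the algebraic closure of the field of special values is countable -/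
theorem closure_countable : {x : ℂ | IsAlgebraic (Subfield.closure SpecialValues) x}.Countable := by
  have h1 : Countable (Subfield.closure SpecialValues) := by
    rw [← Cardinal.mk_le_aleph0_iff]
    refine (Subfield.cardinalMk_closure_le_max _).trans ?_
    exact max_le special_countable.le_aleph0 le_rfl
  exact Algebraic.countable _ _

end proofs

/-- **Main result.** -/
theorem result :
    -- the algebraic closure of the field of all special values may be taken as set of constants
    {x : ℂ | IsAlgebraic (Subfield.closure SpecialValues) x}.Countable ∧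
    ∃ G₀ : ℕ, 1 ≤ G₀ ∧ ∀ G : ℕ, G₀ ≤ G → ∀ (m A : ℕ → ℕ) (Ξ : ℕ → Set ℂ), Rich m A Ξ →
    -- all polynomials over a countable set of constants
    (∀ F : Set ℂ, F.Countable → ∃ T : ℕ → Finset ℂ, AlmostFull G Ξ T ∧
      ∀ (n : ℕ) (P : MvPolynomial (Fin n × Fin 3) ℂ), P ≠ 0 → (∀ s, P.coeff s ∈ F) → ∃ l : ℕ,
        ∀ z : ℂ → ℂ, Above T z → ∀ t : Fin n → ℂ, Function.Injective t → (∀ i, ∃ j ≥ l, t i ∈ T j) →
          MvPolynomial.eval (fun v => numbers (z (t v.1)) v.2) P ≠ 0) ∧
    -- given degrees and constants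
    ∀ V : ℕ → Submodule ℚ ℂ, (∀ j, Module.Finite ℚ (V j)) → Monotone V → ∀ δ : ℕ → ℕ, Monotone δ →
      ∃ T : ℕ → Finset ℂ, AlmostFull G Ξ T ∧ ∀ z : ℂ → ℂ, Above T z →
      ∀ (l : ℕ) (K : IntermediateField ℚ ℂ), FiniteDimensional ℚ K → Module.finrank ℚ K ≤ δ l →
      ∀ P : MvPolynomial (ℂ × Fin 3) ℂ, P ≠ 0 → (∀ v ∈ P.vars, ∃ j ≥ l, v.1 ∈ T j) →
        (∀ v, P.degreeOf v ≤ δ l) → (∀ s, P.coeff s ∈ Submodule.span K (V l : Set ℂ)) →
        MvPolynomial.eval (fun v => numbers (z v.1) v.2) P ≠ 0 := by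
  refine ⟨closure_countable, ?_⟩
  obtain ⟨G₀, hG₀, h⟩ := Pool.Agent.U534.Tens.algmod
  refine ⟨G₀, hG₀, fun G hG m A Ξ hΞ => ⟨fun F hF => ?_, fun V hVf hV δ hδ => ?_⟩⟩
  · obtain ⟨T, hT, h⟩ := Pool.Agent.U534.Tens.countable_form (Y := Pool.Agent.U534.Tens.YC) (G := AlmostFull G Ξ)
      (fun V hVf hV δ hδ => h G hG (m := m) (A := A) hΞ hVf hV hδ) F hF
    refine ⟨T, hT, fun n P hP hPc => ?_⟩
    obtain ⟨l, hl⟩ := h n P hP hPc
    exact ⟨l, fun z hz t ht htT => hl (fun t => numbers (z t)) (fun j t ht => numbers_mem (hz j t ht).1 (hz j t ht).2) t ht htT⟩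
  · obtain ⟨T, hT, h⟩ := h G hG (m := m) (A := A) hΞ hVf hV hδ
    exact ⟨T, hT, fun z hz => h (fun t => numbers (z t)) fun j t ht => numbers_mem (hz j t ht).1 (hz j t ht).2⟩

end Pool.Agent.Results.MP_f58a57_nt.AlmostFullWindows
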