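import Pool.Agent.U907.GP.Num

set_option autoImplicit false

/-!
# Products of conjugates of the period matrix and the period conjecture

Let `P` be the matrix of the comparison isomorphism `β` of a smooth projective variety `X` over `ℚ̄` (or
of any motive; the theorem is about an arbitrary invertible complex matrix). Let `k` be a field of
algebraic numbers; the main case is `k = ℚ`, since `G_mod(X)` is a group over `ℚ`. A *period group* over
`k` is an algebraic group `G ⊆ GL_N` over `k` such that `P` is a point of a torsor of `G` which is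
defined over `ℚ̄`: `P T ∈ G(ℂ)` for an invertible matrix `T` with algebraic entries (`IsPeriodGroup`). The
group `G_mod(X)` is a period group over `ℚ`, since `β` is a complex point of the period torsor.

The automorphisms `σ` of the field `ℂ` act on matrices; `σ(P)` is a conjugate of `P`. If `σ` and `τ` are
automorphisms over `k` with the same restriction to the algebraic numbers, then
`σ(P) τ(P)⁻¹` is a *quotient of conjugates* (`quotients`). For `σ = id` on `ℚ̄` and `τ = id` these are the values
`σ(P) P⁻¹` of the cocycle which measures by how much the Galois theory of the periods differs from that of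
algebraic numbers. Let `trdeg x` be the transcendence degree over `ℚ̄` of the field generated by the
entries of the matrix `x`, and for a group `G` let `dim G` be the largest `trdeg x` for `x ∈ G` (if `G`
is algebraic over `ℚ̄` this is its dimension). Let `v_m` be the largest number of algebraically independent
entries of a product of `m` quotients of conjugates (`growth`).

**Theorem.** For every `P` and `k` there is a smallest period group `G` over `k`, and:

1. An algebraic group over `k` is a period group if and only if it contains all quotients of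
   conjugates. So `G` is the smallest algebraic group over `k` which contains the quotients of conjugates.
2. (Growth law) `trdeg P ≤ v_1 ≤ v_2 ≤ … ≤ dim G`, and `v_m < v_{m+1}` as long as `v_m < dim G`. So
   `v_m ≥ min (dim G, trdeg P + m - 1)`, and `v_m = dim G` if `m > dim G - trdeg P`. A product with
   `dim G` algebraically independent entries is a generic point of `G`: every
   polynomial relation over `ℚ̄` between its entries holds on all of `G`.
3. (Criterion) The following are equivalent:
   (a) `trdeg P = dim G`;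
   (b) no product of two quotients of conjugates has more algebraically independent entries than `P`;
   (c) every polynomial relation over `ℚ̄` between the entries of `P` holds on the torsor `G P`.
   If `k` contains all algebraic numbers, one quotient suffices in (b): it is enough that
   `trdeg (σ(P) P⁻¹) ≤ trdeg P` for all automorphisms `σ` over `ℚ̄`.
4. For every period group `G'`, for example `G' = G_mod(X)`, `trdeg P ≤ dim G ≤ dim G'`. So
   `trdeg P = dim G'`, which is the conjecture of Grothendieck for `G' = G_mod(X)`, holds if and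
   only if (b) holds and `dim G = dim G'`.

So the weak form of the period conjecture for `X` is the conjunction of two statements of different kind. The
second one, `dim G = dim G_mod(X)`, only involves algebraic groups over `ℚ` with a torsor through `P`
(by 1. it says that the quotients of conjugates generate a group of full dimension); it is
known for some classes of abelian varieties, where it follows from the theorems of Schneider, Lang and
Wüstholz. The first one is the part on algebraic
independence: products of two quotients of conjugates do not have more algebraically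
independent entries than `P`. If the first one fails, then the number of algebraically independent
entries grows strictly until the products are generic points of `G`.

## Proof

The Zariski closure over `ℚ̄` of a conjugate `τ(P)` is determined by its set `Z_τ` of algebraic points
(Nullstellensatz). By a transcendence basis argument there are conjugates of `P` over `ℚ̄` which are generic
points of `Z_τ` over any given countable field, so that the product of a generic point `g` of a set
`W` of algebraic matrices with a suitable quotient of conjugates is a generic point of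
`W Z_τ Z_τ⁻¹`, which contains `W`. If the transcendence degree does not grow for any `τ`, then the
closure of `W` is stable under `Z_τ Z_τ⁻¹` for all `τ`, so that it is the closure of the group generated by
the sets `Z_τ Z_τ⁻¹`. This closure is defined over `k` by Galois descent for the automorphisms of `ℂ` over `k`,
it is a period group, and every period group contains the sets `Z_τ Z_τ⁻¹`. For (b) ⇒ (a) note that
`trdeg P ≤ v_1 ≤ v_2`. (The first part is a quantitative form of the argument of Borel for groups
generated by irreducible sets.)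
-/

open MvPolynomial Matrix
open Pool.Agent.U907.GP (QB)
open scoped Pointwise

noncomputable section

namespace Pool.Agent.Results.MP_caab05_ag.NoGrowthCriterion

variable {n : ℕ}

/-- the field `ℚ̄` of the algebraic numbers -/
def algebraicNumbers : Subfield ℂ := (algebraicClosure ℚ ℂ).toSubfield

/-- A subgroup of `GL_n(ℂ)` defined by polynomials with coefficients in `k`. -/
def IsAlgebraicGroup (k : Subfield ℂ) (G : Subgroup (GL (Fin n) ℂ)) : Prop :=
  ∃ I : Set (MvPolynomial (Fin n × Fin n) k), ∀ x : GL (Fin n) ℂ, x ∈ G ↔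
    ∀ p ∈ I, aeval (fun b : Fin n × Fin n => (x : Matrix (Fin n) (Fin n) ℂ) b.1 b.2) p = 0

/-- `G` is a period group over `k` of `P`: an algebraic group over `k` which has a torsor over `ℚ̄` that
contains `P`. -/
def IsPeriodGroup (k : Subfield ℂ) (P : GL (Fin n) ℂ) (G : Subgroup (GL (Fin n) ℂ)) : Prop :=
  IsAlgebraicGroup k G ∧ ∃ T : GL (Fin n) ℂ,
    (∀ i j, IsAlgebraic ℚ ((T : Matrix (Fin n) (Fin n) ℂ) i j)) ∧ P * T ∈ G

/-- The conjugate `σ(P)`: the automorphism `σ` of `ℂ` is applied to the entries of `P`. -/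
def conjugate (σ : ℂ ≃+* ℂ) (P : GL (Fin n) ℂ) : GL (Fin n) ℂ :=
  Matrix.GeneralLinearGroup.map (σ : ℂ →+* ℂ) P

/-- The quotients of conjugates `σ(P) τ(P)⁻¹`, where `σ` and `τ` are automorphisms of `ℂ` over `k` which
are equal on the algebraic numbers. -/
def quotients (k : Subfield ℂ) (P : GL (Fin n) ℂ) : Set (GL (Fin n) ℂ) :=
  {c | ∃ σ τ : ℂ ≃+* ℂ, (∀ a ∈ k, σ a = a) ∧ (∀ a ∈ k, τ a = a) ∧
    (∀ a, IsAlgebraic ℚ a → σ a = τ a) ∧ c = conjugate σ P * (conjugate τ P)⁻¹}

/-- The products of `m` quotients of conjugates. -/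
def products (k : Subfield ℂ) (P : GL (Fin n) ℂ) (m : ℕ) : Set (GL (Fin n) ℂ) :=
  {g | ∃ c : Fin m → GL (Fin n) ℂ, (∀ i, c i ∈ quotients k P) ∧ g = (List.ofFn c).prod}

/-- The transcendence degree over `ℚ̄` of the field generated by the entries of a matrix. -/
def trdeg (x : GL (Fin n) ℂ) : ℕ :=
  Cardinal.toNat (Algebra.trdeg algebraicNumbers (IntermediateField.adjoin algebraicNumbers
    (Set.range fun b : Fin n × Fin n => (x : Matrix (Fin n) (Fin n) ℂ) b.1 b.2)))

/-- The dimension of an algebraic group: the largest transcendence degree of its points. -/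
def dim (G : Subgroup (GL (Fin n) ℂ)) : ℕ := sSup (trdeg '' (G : Set (GL (Fin n) ℂ)))

/-- The largest transcendence degree of a product of `m` quotients of conjugates. -/
def growth (k : Subfield ℂ) (P : GL (Fin n) ℂ) (m : ℕ) : ℕ := sSup (trdeg '' products k P m)

/-- The polynomial relation `p = 0` between the entries holds for the matrix `x`. -/
def Holds (p : MvPolynomial (Fin n × Fin n) algebraicNumbers) (x : GL (Fin n) ℂ) : Prop :=
  aeval (fun b : Fin n × Fin n => (x : Matrix (Fin n) (Fin n) ℂ) b.1 b.2) p = 0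

theorem trdeg_eq (x : GL (Fin n) ℂ) : trdeg x = Pool.Agent.U907.GP.tdg QB x :=
  Pool.Agent.U907.GP.trd_eq x

theorem trdeg_fun : (trdeg : GL (Fin n) ℂ → ℕ) = Pool.Agent.U907.GP.tdg QB := funext trdeg_eq

theorem quotients_eq (k : Subfield ℂ) (P : GL (Fin n) ℂ) :
    quotients k P = Pool.Agent.U907.GP.Q k QB P := by
  ext c
  constructor
  · rintro ⟨σ, τ, h1, h2, h3, h4⟩
    exact ⟨σ, τ, h1, h2, fun a ha => h3 a (Pool.Agent.U907.GP.mem_QB.1 ha), h4⟩
  · rintro ⟨σ, τ, h1, h2, h3, h4⟩
    exact ⟨σ, τ, h1, h2, fun a ha => h3 a (Pool.Agent.U907.GP.mem_QB.2 ha), h4⟩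

theorem products_eq (k : Subfield ℂ) (P : GL (Fin n) ℂ) (m : ℕ) :
    products k P m = Pool.Agent.U907.GP.Q k QB P ^ m := by
  ext g
  rw [Set.mem_pow, ← quotients_eq]
  constructor
  · rintro ⟨c, hc, rfl⟩
    exact ⟨fun i => ⟨c i, hc i⟩, rfl⟩
  · rintro ⟨c, rfl⟩
    exact ⟨fun i => c i, fun i => (c i).2, rfl⟩

theorem growth_eq (k : Subfield ℂ) (P : GL (Fin n) ℂ) (m : ℕ) :
    growth k P m = Pool.Agent.U907.GP.gr k QB P m := by
  unfold growth Pool.Agent.U907.GP.gr
  rw [products_eq, trdeg_fun]

theorem dim_eq (G : Subgroup (GL (Fin n) ℂ)) : dim G = Pool.Agent.U907.GP.dimG QB G := by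
  unfold dim Pool.Agent.U907.GP.dimG
  rw [trdeg_fun]

theorem isPeriodGroup_iff (k : Subfield ℂ) (P : GL (Fin n) ℂ) (G : Subgroup (GL (Fin n) ℂ)) :
    IsPeriodGroup k P G ↔ Pool.Agent.U907.GP.IsPer k QB P G := by
  constructor
  · rintro ⟨h1, T, h2, h3⟩
    exact ⟨h1, T, fun i j => Pool.Agent.U907.GP.mem_QB.2 (h2 i j), h3⟩
  · rintro ⟨h1, T, h2, h3⟩
    exact ⟨h1, T, fun i j => Pool.Agent.U907.GP.mem_QB.1 (h2 i j), h3⟩

theorem two_iff (k : Subfield ℂ) (P : GL (Fin n) ℂ) (d : ℕ) :
    Pool.Agent.U907.GP.gr k QB P 2 ≤ d ↔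
      ∀ c₁ ∈ quotients k P, ∀ c₂ ∈ quotients k P, trdeg (c₁ * c₂) ≤ d := by
  rw [quotients_eq]
  constructor
  · intro h c₁ h1 c₂ h2
    rw [trdeg_eq]
    refine le_trans (Pool.Agent.U907.GP.tdg_le_gr ?_) h
    rw [pow_two]
    exact ⟨c₁, h1, c₂, h2, rfl⟩
  · intro h
    obtain ⟨g, hg, h1⟩ := Pool.Agent.U907.GP.exists_gr (k := k) (K := QB) (P := P) 2
    rw [pow_two] at hg
    obtain ⟨c₁, h2, c₂, h3, rfl⟩ := hg
    rw [← h1, ← trdeg_eq]
    exact h c₁ h2 c₂ h3

/-- **Theorem.** Let `P` be an invertible complex matrix and let `k` be a field of algebraic numbers. There is a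
smallest period group `G` over `k`, and the following holds. -/
theorem result (k : Subfield ℂ) (hk : ∀ a ∈ k, IsAlgebraic ℚ a) (P : GL (Fin n) ℂ) :
    ∃ G : Subgroup (GL (Fin n) ℂ), IsPeriodGroup k P G ∧
      (∀ G', IsPeriodGroup k P G' → G ≤ G') ∧
      -- period groups are the algebraic groups that contain the quotients of conjugates
      (∀ G', IsAlgebraicGroup k G' → (IsPeriodGroup k P G' ↔ quotients k P ⊆ G')) ∧
      -- the growth law
      trdeg P ≤ growth k P 1 ∧
      (∀ m, growth k P m ≤ growth k P (m + 1) ∧ growth k P m ≤ dim G) ∧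
      (∀ m, growth k P m < dim G → growth k P m < growth k P (m + 1)) ∧
      (∀ m, dim G < trdeg P + m → growth k P m = dim G) ∧
      (∀ g ∈ G, trdeg g = dim G → ∀ p, Holds p g → ∀ x ∈ G, Holds p x) ∧
      -- the criterion
      [trdeg P = dim G,
        ∀ c₁ ∈ quotients k P, ∀ c₂ ∈ quotients k P, trdeg (c₁ * c₂) ≤ trdeg P,
        ∀ p, Holds p P → ∀ x ∈ G, Holds p (x * P)].TFAE ∧
      (algebraicNumbers ≤ k → (trdeg P = dim G ↔
        ∀ σ : ℂ ≃+* ℂ, (∀ a, IsAlgebraic ℚ a → σ a = a) → trdeg (conjugate σ P * P⁻¹) ≤ trdeg P)) ∧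
      -- all period groups
      (∀ G', IsPeriodGroup k P G' → trdeg P ≤ dim G' ∧ dim G ≤ dim G' ∧
        (trdeg P = dim G' ↔ (∀ c₁ ∈ quotients k P, ∀ c₂ ∈ quotients k P,
          trdeg (c₁ * c₂) ≤ trdeg P) ∧ dim G = dim G')) := by
  have hd := Pool.Agent.U907.GP.data_of_algebraic hk
  have hmin := fun (G' : Subgroup (GL (Fin n) ℂ)) (h : IsPeriodGroup k P G') =>
    Pool.Agent.U907.GP.GG_le hd ((isPeriodGroup_iff k P G').1 h)
  have hcrit : trdeg P = dim (Pool.Agent.U907.GP.GG k QB P) ↔
      ∀ c₁ ∈ quotients k P, ∀ c₂ ∈ quotients k P, trdeg (c₁ * c₂) ≤ trdeg P := by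
    rw [← two_iff, dim_eq, trdeg_eq]
    exact Pool.Agent.U907.GP.tdg_eq_iff hd.le hd.st
  have hle : trdeg P ≤ dim (Pool.Agent.U907.GP.GG k QB P) := by
    rw [trdeg_eq, dim_eq]
    exact (Pool.Agent.U907.GP.tdg_le_gr_one hd.le hd.st).trans
      (Pool.Agent.U907.GP.gr_le_dimG hd.st 1)
  have hdim : ∀ G', IsPeriodGroup k P G' → dim (Pool.Agent.U907.GP.GG k QB P) ≤ dim G' := by
    intro G' hG'
    rw [dim_eq, dim_eq]
    refine csSup_le_csSup (Pool.Agent.U907.GP.bdd _)
      ⟨_, 1, (Pool.Agent.U907.GP.GG k QB P).one_mem, rfl⟩ ?_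
    exact Set.image_mono (hmin G' hG')
  refine ⟨Pool.Agent.U907.GP.GG k QB P, (isPeriodGroup_iff k P _).2
    (Pool.Agent.U907.GP.isPer_GG hd P), hmin, ?_, ?_, ?_, ?_, ?_, ?_, ?_, ?_, ?_⟩
  · intro G' hG'
    rw [quotients_eq]
    constructor
    · intro h c hc
      refine hmin G' h (Pool.Agent.U907.GP.pow_le_GG hd.st (m := 1) ?_)
      rw [pow_one]
      exact hc
    · intro h
      refine ⟨hG', ?_⟩
      obtain ⟨-, T, hT, hPT⟩ := (isPeriodGroup_iff k P _).2 (Pool.Agent.U907.GP.isPer_GG hd P)
      exact ⟨T, hT, Pool.Agent.U907.GP.GG_le_of_Q hd hG' h hPT⟩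
  · rw [trdeg_eq, growth_eq]
    exact Pool.Agent.U907.GP.tdg_le_gr_one hd.le hd.st
  · intro m
    rw [growth_eq, growth_eq, dim_eq]
    exact ⟨Pool.Agent.U907.GP.gr_le_succ m, Pool.Agent.U907.GP.gr_le_dimG hd.st m⟩
  · intro m
    rw [growth_eq, growth_eq, dim_eq]
    exact Pool.Agent.U907.GP.gr_lt hd.le hd.st
  · intro m hm
    rw [dim_eq, trdeg_eq] at hm
    rw [dim_eq, trdeg_eq] at hle
    rw [growth_eq, dim_eq]
    obtain _ | m := m
    · omega
    · have h1 := Pool.Agent.U907.GP.gr_ge (P := P) hd.le hd.st m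
      have h2 := Pool.Agent.U907.GP.tdg_le_gr_one (P := P) hd.le hd.st
      have h3 := Pool.Agent.U907.GP.gr_le_dimG (P := P) hd.st (m + 1)
      omega
  · intro g hg h p hp x hx
    rw [trdeg_eq, dim_eq] at h
    exact Pool.Agent.U907.GP.relations_of_max hd hg h hp hx
  · tfae_have 1 ↔ 2 := hcrit
    tfae_have 1 → 3 := by
      intro h p hp x hx
      rw [trdeg_eq, dim_eq] at h
      exact Pool.Agent.U907.GP.relations_of_tdg hd h hp hx
    tfae_have 3 → 1 := by
      intro h
      rw [trdeg_eq, dim_eq]
      exact Pool.Agent.U907.GP.tdg_of_relations hd h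
    tfae_finish
  · intro hkQ
    have hkQ' : k = QB := le_antisymm hd.le hkQ
    subst hkQ'
    rw [trdeg_eq, dim_eq, Pool.Agent.U907.GP.tdg_eq_iff_one hd]
    constructor
    · intro h σ hσ
      rw [trdeg_eq]
      refine le_trans (Pool.Agent.U907.GP.tdg_le_gr ?_) h
      rw [pow_one]
      refine ⟨σ, RingEquiv.refl ℂ, fun a ha => hσ a (Pool.Agent.U907.GP.mem_QB.1 ha),
        fun _ _ => rfl, fun a ha => hσ a (Pool.Agent.U907.GP.mem_QB.1 ha), ?_⟩
      rw [Pool.Agent.U907.GP.cj_refl]
      rfl
    · intro h
      obtain ⟨g, hg, h1⟩ := Pool.Agent.U907.GP.exists_gr (k := QB) (K := QB) (P := P) 1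
      rw [pow_one] at hg
      obtain ⟨σ, τ, hσ, hτ, -, rfl⟩ := hg
      rw [← h1]
      have hτ' : ∀ a, IsAlgebraic ℚ a → τ.symm a = a := fun a ha => by
        rw [RingEquiv.symm_apply_eq]
        exact (hτ a (Pool.Agent.U907.GP.mem_QB.2 ha)).symm
      have h2 := h (σ.trans τ.symm) fun a ha => by
        rw [RingEquiv.trans_apply, hσ a (Pool.Agent.U907.GP.mem_QB.2 ha), hτ' a ha]
      rw [trdeg_eq] at h2
      refine le_trans (le_of_eq ?_) h2
      have h3 : Pool.Agent.U907.GP.cj σ P * (Pool.Agent.U907.GP.cj τ P)⁻¹ =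
          Pool.Agent.U907.GP.cj τ (conjugate (σ.trans τ.symm) P * P⁻¹) := by
        rw [Pool.Agent.U907.GP.cj_mul, Pool.Agent.U907.GP.cj_inv]
        congr 1
        change _ = Pool.Agent.U907.GP.cj τ (Pool.Agent.U907.GP.cj (σ.trans τ.symm) P)
        rw [Pool.Agent.U907.GP.cj_cj]
        congr 1
        ext a
        simp
      rw [h3]
      exact Pool.Agent.U907.GP.tdg_cj hτ _
  · intro G' hG'
    have h1 := hdim G' hG'
    refine ⟨hle.trans h1, h1, ?_⟩
    rw [← hcrit]
    constructor
    · intro h
      exact ⟨le_antisymm hle (h ▸ h1), le_antisymm h1 (h ▸ hle)⟩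
    · rintro ⟨h2, h3⟩
      rw [h2, h3]

end Pool.Agent.Results.MP_caab05_ag.NoGrowthCriterion
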