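import Mathlib
import Pool.Agent.U534.ZetaSums
import Pool.Agent.H340R2.LW

/-!
# Random subset sums of odd zeta values, and `π`, are algebraically independent in bounded degree

The question asks whether `π, ζ(3), ζ(5), ζ(7), …` are algebraically independent. It is not even known
that a single odd zeta value is transcendental, or that one of them satisfies no quadratic equation
with integral coefficients. We consider random sums of odd zeta values

  `Z(S) = ∑_{i ∈ S} ζ(i)`,  `S ⊆ {3, 5, 7, …}`, `max S ≤ n`,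

where `S` is one of the `2^(⌊(n-1)/2⌋)` subsets. If `S_1, …, S_k` are independent random subsets, the
conjecture says that `π, Z(S_1), …, Z(S_k)` are algebraically independent unless the indicator vectors of the `S_j` are
linearly dependent, in particular outside a set of exponentially small probability. We show:

1. Let `W` be a rational vector space of complex numbers of dimension at most `N`, and let
   `y_1, …, y_k` be arbitrary complex numbers. Except for a proportion of at most `M n^(-ε)` of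
   the `k`-tuples of subsets, no nonzero polynomial with coefficients in `W` of degree at most `D` in
   each variable vanishes at `(y_1 + Z(S_1), …, y_k + Z(S_k))`. Here `M` and `ε > 0` depend only on
   `k`, `D` and `N`.
2. Let `s_1, …, s_l` be complex numbers which satisfy no relation over `ℚ` of degree at most `D` in each of
   them. Except for a proportion of at most `M n^(-ε)` of the tuples the same is true of the numbers
   `s_1, …, s_l, y_1 + Z(S_1), …, y_k + Z(S_k)`; `M` and `ε > 0` depend only on `k`, `D` and `l`.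
3. There is a function `ω(n) → ∞` such that, for all `n` and all but a proportion of at most `1 / (ω(n) + 1)`
   of the `ω(n)`-tuples of subsets, `π` and the `ω(n)` numbers `Z(S_j)` satisfy no nonzero polynomial
   relation over `ℚ` of degree at most `ω(n)` in each of them.

**The proof.** By a starting result (`MP_a89d6d_nt.OutsideSubspaces`, in the tradition of Rivoal,
Ball-Rivoal and Fischler-Sprang-Zudilin) every rational vector space of bounded dimension misses more
than `n^(1/4)` of the odd zeta values `ζ(i)`, `i ≤ n`. The theorem `Pool.Agent.Y918.QC.sub_tuples` of the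
starting library, where it was not handed in, is an inequality of Littlewood-Offord type for polynomial
relations: random subset sums of numbers with this property satisfy no relation of bounded
degree over spaces of bounded dimension, up to a small probability (disjoint groups of summands, the
inequality of Littlewood-Offord-Erdős for subspaces, an iterated Cauchy-Schwarz inequality, and a
theorem on grids, whose combinatorial directions are linearly independent over `ℚ`).
-/

set_option autoImplicit false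

namespace Pool.Agent.Results.MP_a89d6d_nt.RandomSubsetSums

open Filter

/-- The odd numbers `i` with `3 ≤ i ≤ n`. -/
def oddNumbers (n : ℕ) : Finset ℕ := (Finset.Icc 3 n).filter Odd

/-- The `k`-tuples of subsets of `{3, 5, 7, …, n}`. -/
def tuples (k n : ℕ) : Finset (Fin k → Finset ℕ) :=
  Fintype.piFinset fun _ : Fin k => (oddNumbers n).powerset

/-- `Z(S) = ∑_{i ∈ S} ζ(i)`. -/
noncomputable def Z (S : Finset ℕ) : ℂ := ∑ i ∈ S, riemannZeta i

/-- The numbers `x_i` satisfy no nonzero polynomial relation with coefficients in `W` of degree at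
most `D` in each of them. -/
def NoRelationOver (W : Submodule ℚ ℂ) (D : ℕ) {ι : Type} (x : ι → ℂ) : Prop :=
  ∀ p : MvPolynomial ι ℂ, (∀ e, p.coeff e ∈ W) → (∀ i, p.degreeOf i ≤ D) →
    MvPolynomial.eval x p = 0 → p = 0

/-- The numbers `x_i` satisfy no nonzero polynomial relation with rational coefficients of degree
at most `D` in each of them. -/
def NoRelation (D : ℕ) {ι : Type} (x : ι → ℂ) : Prop :=
  ∀ p : MvPolynomial ι ℚ, (∀ i, p.degreeOf i ≤ D) → MvPolynomial.aeval x p = 0 → p = 0

theorem Z_eq {n : ℕ} {S : Finset ℕ} (hS : S ⊆ oddNumbers n) :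
    Z S = ∑ i ∈ S, ((Pool.Agent.U534.Zeta.zv i : ℝ) : ℂ) := by
  unfold Z
  refine Finset.sum_congr rfl fun i hi => ?_
  have h1 := Finset.mem_filter.1 (hS hi)
  have h3 : 3 ≤ i := (Finset.mem_Icc.1 h1.1).1
  have h4 := zeta_eq_tsum_one_div_nat_add_one_cpow (s := (i : ℂ)) (by
    rw [Complex.natCast_re]
    exact_mod_cast (by omega : 1 < i))
  rw [h4, Pool.Agent.U534.Zeta.zv, Complex.ofReal_tsum]
  refine tsum_congr fun n => ?_
  rw [Complex.cpow_natCast]
  push_cast
  rfl

open Classical in
theorem part1 (k D N : ℕ) : ∃ M ε : ℝ, 0 < M ∧ 0 < ε ∧ ∀ n : ℕ, 1 ≤ n →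
    ∀ W : Submodule ℚ ℂ, Module.Finite ℚ W → Module.finrank ℚ W ≤ N → ∀ y : Fin k → ℂ,
    (((tuples k n).filter (fun S => ¬ NoRelationOver W D (fun j => y j + Z (S j)))).card : ℝ) ≤
      M * (n : ℝ) ^ (-ε) * (tuples k n).card := by
  obtain ⟨M, ε, hM, hε, h⟩ := Pool.Agent.U534.Zeta.main D k N
  refine ⟨M, ε, hM, hε, fun n hn W hW hWN y => ?_⟩
  have hc : (((tuples k n).card : ℕ) : ℝ) = ((2 : ℝ) ^ (oddNumbers n).card) ^ k := by
    rw [tuples, Fintype.card_piFinset_const, Finset.card_powerset]
    push_cast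
    rfl
  rw [hc]
  refine le_trans (Nat.cast_le.2 (Finset.card_le_card ?_)) (h n hn W hW hWN y)
  intro S hS
  rw [Finset.mem_filter] at hS ⊢
  refine ⟨hS.1, fun hI => hS.2 ?_⟩
  intro p hpW hdeg h0
  have hS1 : ∀ j, S j ⊆ oddNumbers n := fun j =>
    Finset.mem_powerset.1 (Fintype.mem_piFinset.1 hS.1 j)
  refine Pool.Agent.U534.RelK.eq_zero_of_indepT (y := fun j => y j + Z (S j)) ?_ p hpW hdeg h0
  have h1 : (fun j (e : Fin (D + 1)) => (y j + Z (S j)) ^ (e : ℕ)) =
      fun j => Pool.Agent.Y918.QC.pwr D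
        (y j + ∑ i ∈ S j, ((Pool.Agent.U534.Zeta.zv i : ℝ) : ℂ)) := by
    funext j e
    rw [Z_eq (hS1 j)]
    rfl
  rw [h1]
  exact hI

open Classical in
theorem part2 (l k D : ℕ) : ∃ M ε : ℝ, 0 < M ∧ 0 < ε ∧ ∀ n : ℕ, 1 ≤ n →
    ∀ s : Fin l → ℂ, NoRelation D s → ∀ y : Fin k → ℂ,
    (((tuples k n).filter
      (fun S => ¬ NoRelation D (Sum.elim s (fun j => y j + Z (S j))))).card : ℝ) ≤
      M * (n : ℝ) ^ (-ε) * (tuples k n).card := by
  obtain ⟨M, ε, hM, hε, h⟩ := Pool.Agent.U534.Zeta.main D k ((D + 1) ^ l)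
  refine ⟨M, ε, hM, hε, fun n hn s hs y => ?_⟩
  have hc : (((tuples k n).card : ℕ) : ℝ) = ((2 : ℝ) ^ (oddNumbers n).card) ^ k := by
    rw [tuples, Fintype.card_piFinset_const, Finset.card_powerset]
    push_cast
    rfl
  rw [hc]
  obtain ⟨hf, hr⟩ := Pool.Agent.U534.RelK.monSpan_finite (K := ℚ) D s
  refine le_trans (Nat.cast_le.2 (Finset.card_le_card ?_))
    (h n hn (Pool.Agent.U534.RelK.monSpan ℚ D s) hf hr y)
  intro S hS
  rw [Finset.mem_filter] at hS ⊢
  refine ⟨hS.1, fun hI => hS.2 ?_⟩
  have hS1 : ∀ j, S j ⊆ oddNumbers n := fun j =>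
    Finset.mem_powerset.1 (Fintype.mem_piFinset.1 hS.1 j)
  refine Pool.Agent.U534.RelK.noRelation_sum (K := ℚ) hs (fun j => y j + Z (S j)) ?_
  have h1 : (fun j (e : Fin (D + 1)) => (y j + Z (S j)) ^ (e : ℕ)) =
      fun j => Pool.Agent.Y918.QC.pwr D
        (y j + ∑ i ∈ S j, ((Pool.Agent.U534.Zeta.zv i : ℝ) : ℂ)) := by
    funext j e
    rw [Z_eq (hS1 j)]
    rfl
  rw [h1]
  exact hI

open Classical in
theorem part3 : ∃ ω : ℕ → ℕ, Tendsto ω atTop atTop ∧ ∀ n : ℕ,
    (((tuples (ω n) n).filter
      (fun S => ¬ NoRelation (ω n) (Sum.elim (fun _ : Fin 1 => (Real.pi : ℂ))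
        (fun j => Z (S j))))).card : ℝ) ≤ 1 / (ω n + 1) * (tuples (ω n) n).card := by
  choose M ε hM hε h using fun m : ℕ => part2 1 m m
  have hex : ∀ m : ℕ, ∃ N : ℕ, 1 ≤ N ∧ ∀ n ≥ N, M m * (n : ℝ) ^ (-(ε m)) ≤ 1 / (m + 1) := by
    intro m
    have h1 : Tendsto (fun n : ℕ => M m * (n : ℝ) ^ (-(ε m))) atTop (nhds (M m * 0)) :=
      ((tendsto_rpow_neg_atTop (hε m)).comp tendsto_natCast_atTop_atTop).const_mul _
    rw [mul_zero] at h1
    have h2 := h1.eventually (ge_mem_nhds (show (0 : ℝ) < 1 / (m + 1) by positivity))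
    obtain ⟨N, hN⟩ := Filter.eventually_atTop.1 h2
    exact ⟨max N 1, le_max_right _ _, fun n hn => hN n (le_trans (le_max_left _ _) hn)⟩
  choose N hN1 hN using hex
  have hπ : ∀ D : ℕ, NoRelation D (fun _ : Fin 1 => (Real.pi : ℂ)) := fun D =>
    Pool.Agent.U534.RelK.noRelation_single (K := ℚ)
      Pool.Agent.H340R2.LW.transcendental_pi_complex D
  refine ⟨fun n => Nat.findGreatest (fun m => N m ≤ n) n, ?_, fun n => ?_⟩
  · rw [Filter.tendsto_atTop]
    intro b
    filter_upwards [Filter.eventually_ge_atTop (max b (N b))] with n hn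
    exact Nat.le_findGreatest (le_trans (le_max_left _ _) hn) (le_trans (le_max_right _ _) hn)
  · by_cases h0 : Nat.findGreatest (fun m => N m ≤ n) n = 0
    · simp only [h0]
      rw [Nat.cast_zero, zero_add, div_one, one_mul]
      exact Nat.cast_le.2 (Finset.card_le_card (Finset.filter_subset _ _))
    · set m := Nat.findGreatest (fun m => N m ≤ n) n with hm
      have hNm : N m ≤ n := by
        have h5 := Nat.findGreatest_of_ne_zero (P := fun m => N m ≤ n) (n := n) (m := m) hm.symm h0
        exact h5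
      have h1 := h m n ((hN1 m).trans hNm) (fun _ => (Real.pi : ℂ)) (hπ m) (fun _ => 0)
      simp only [zero_add] at h1
      exact h1.trans (mul_le_mul_of_nonneg_right (hN m n hNm) (Nat.cast_nonneg _))

open Classical in
/-- **Main result.** -/
theorem result :
    (∀ k D N : ℕ, ∃ M ε : ℝ, 0 < M ∧ 0 < ε ∧ ∀ n : ℕ, 1 ≤ n →
      ∀ W : Submodule ℚ ℂ, Module.Finite ℚ W → Module.finrank ℚ W ≤ N → ∀ y : Fin k → ℂ,
      (((tuples k n).filter (fun S => ¬ NoRelationOver W D (fun j => y j + Z (S j)))).card : ℝ) ≤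
        M * (n : ℝ) ^ (-ε) * (tuples k n).card) ∧
    (∀ l k D : ℕ, ∃ M ε : ℝ, 0 < M ∧ 0 < ε ∧ ∀ n : ℕ, 1 ≤ n →
      ∀ s : Fin l → ℂ, NoRelation D s → ∀ y : Fin k → ℂ,
      (((tuples k n).filter
        (fun S => ¬ NoRelation D (Sum.elim s (fun j => y j + Z (S j))))).card : ℝ) ≤
        M * (n : ℝ) ^ (-ε) * (tuples k n).card) ∧
    (∃ ω : ℕ → ℕ, Tendsto ω atTop atTop ∧ ∀ n : ℕ,
      (((tuples (ω n) n).filter
        (fun S => ¬ NoRelation (ω n) (Sum.elim (fun _ : Fin 1 => (Real.pi : ℂ))
          (fun j => Z (S j))))).card : ℝ) ≤ 1 / (ω n + 1) * (tuples (ω n) n).card) :=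
  ⟨part1, part2, part3⟩

end Pool.Agent.Results.MP_a89d6d_nt.RandomSubsetSums
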